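import Pool.Agent.Helper61.QE.St4

/-!
Module AB2 of project QE: holomorphic families in L2, part 2.
-/

open MeasureTheory Set Filter Topology Complex
open scoped ContDiff ComplexConjugate ENNReal

namespace Pool.Agent.Helper7.QE

open Pool.Agent.Helper68.QC Pool.Agent.Helper61.QE

theorem sub_sq_aux (z w : ℂ) :
    ‖z - w‖ ^ 2 = ‖z‖ ^ 2 - 2 * (conj w * z).re + ‖w‖ ^ 2 := by
  rw [← Complex.normSq_eq_norm_sq, ← Complex.normSq_eq_norm_sq, ← Complex.normSq_eq_norm_sq,
    Complex.normSq_sub, mul_comm (conj w) z]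
  ring

theorem disc_bound {r : ℝ} (hr0 : 0 < r) {t : ℂ} (ht : ‖t‖ ≤ r / 2) {W : ℂ → ℂ} {g : ℝ → ℝ}
    (hW : DiffContOnCl ℂ W (Metric.ball 0 |r|)) (hg : Continuous g)
    (hWg : ∀ θ, ‖W (circleMap 0 r θ)‖ ≤ g θ) :
    ‖W t‖ ≤ 2 * (2 * Real.pi)⁻¹ * ∫ θ in (0 : ℝ)..2 * Real.pi, g θ := by
  have hpi : 0 < 2 * Real.pi := by positivity
  have htm : t ∈ Metric.ball (0 : ℂ) |r| := by
    rw [mem_ball_zero_iff, abs_of_pos hr0]
    linarith
  have key := hW.circleAverage_smul_div htm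
  rw [Real.circleAverage_def] at key
  rw [← key, norm_smul]
  have h1 : ‖∫ θ in (0 : ℝ)..2 * Real.pi, ((circleMap 0 r θ - 0) / (circleMap 0 r θ - t)) •
      W (circleMap 0 r θ)‖ ≤ ∫ θ in (0 : ℝ)..2 * Real.pi, 2 * g θ := by
    refine intervalIntegral.norm_integral_le_of_norm_le hpi.le ?_
      ((hg.const_mul 2).intervalIntegrable _ _)
    refine Filter.Eventually.of_forall fun θ _ => ?_
    rw [norm_smul, norm_div, sub_zero]
    have hn : ‖circleMap 0 r θ‖ = r := by
      rw [norm_circleMap_zero, abs_of_pos hr0]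
    have hn2 : r / 2 ≤ ‖circleMap 0 r θ - t‖ := by
      have := norm_sub_norm_le (circleMap 0 r θ) t
      rw [hn] at this
      linarith
    have h2 : ‖circleMap 0 r θ‖ / ‖circleMap 0 r θ - t‖ ≤ 2 := by
      rw [hn, div_le_iff₀ (by linarith)]
      linarith
    exact mul_le_mul h2 (hWg θ) (norm_nonneg _) (by norm_num)
  rw [intervalIntegral.integral_const_mul] at h1
  rw [Real.norm_of_nonneg (by positivity)]
  calc (2 * Real.pi)⁻¹ * _ ≤ (2 * Real.pi)⁻¹ * (2 * ∫ θ in (0 : ℝ)..2 * Real.pi, g θ) :=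
        mul_le_mul_of_nonneg_left h1 (by positivity)
    _ = 2 * (2 * Real.pi)⁻¹ * ∫ θ in (0 : ℝ)..2 * Real.pi, g θ := by ring

theorem pAB2 (hAB1 : StAB1) : StAB2 := by
  intro X _ m _ U A hA hmeas hhol hbd r hr0 hr1 t ht
  obtain ⟨_, hG⟩ := hAB1 X m U A hA hmeas hhol hbd
  have hDo : IsOpen D := Metric.isOpen_ball
  have h0D : (0 : ℂ) ∈ D := by simp
  have htD : t ∈ D := by
    rw [mem_ball_zero_iff]
    linarith
  have hGd := hG 0 h0D
  have hpi : 0 < 2 * Real.pi := by positivity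
  set c : ℝ → ℂ := circleMap 0 r with hc
  have hcn : ∀ θ, ‖c θ‖ = r := by
    intro θ
    rw [hc, norm_circleMap_zero, abs_of_pos hr0]
  have hcD : ∀ θ, c θ ∈ D := by
    intro θ
    rw [mem_ball_zero_iff, hcn]
    exact hr1
  have hcc : Continuous c := continuous_circleMap 0 r
  have hclos : closure (Metric.ball (0 : ℂ) |r|) ⊆ D := by
    refine Metric.closure_ball_subset_closedBall.trans fun z hz => ?_
    rw [mem_closedBall_zero_iff, abs_of_pos hr0] at hz
    rw [mem_ball_zero_iff]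
    linarith
  have hxc : ∀ x, Continuous (fun θ => U (c θ) x) := fun x =>
    (hhol x).continuousOn.comp_continuous hcc hcD
  have hjm : Measurable (fun p : ℝ × X => U (c p.1) p.2) :=
    measurable_uncurry_of_continuous_of_measurable (u := fun θ x => U (c θ) x) hxc
      (fun θ => hmeas _ (hcD θ))
  have hjm0 : Measurable (fun p : ℝ × X => U 0 p.2) := (hmeas 0 h0D).comp measurable_snd
  -- integrability
  have hint : ∀ s ∈ D, Integrable (fun x => ‖U s x‖ ^ 2) m := by
    intro s hs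
    refine ⟨((hmeas s hs).norm.pow_const 2).aestronglyMeasurable, ?_⟩
    rw [hasFiniteIntegral_iff_ofReal (Filter.Eventually.of_forall fun x => by positivity)]
    exact lt_of_le_of_lt (hbd s hs) ENNReal.ofReal_lt_top
  have hcr : ∀ s ∈ D, Integrable (fun x => conj (U 0 x) * U s x) m := by
    intro s hs
    refine Integrable.mono' ((hint 0 h0D).add (hint s hs)) ?_ ?_
    · exact ((Complex.continuous_conj.measurable.comp (hmeas 0 h0D)).mul
        (hmeas s hs)).aestronglyMeasurable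
    · refine Filter.Eventually.of_forall fun x => ?_
      change ‖conj (U 0 x) * U s x‖ ≤ ‖U 0 x‖ ^ 2 + ‖U s x‖ ^ 2
      rw [norm_mul, Complex.norm_conj]
      nlinarith [sq_nonneg (‖U 0 x‖ - ‖U s x‖), norm_nonneg (U 0 x), norm_nonneg (U s x)]
  set v : ℂ → ℝ := fun s => ∫ x, ‖U s x‖ ^ 2 ∂m with hv
  set G : ℂ → ℂ := fun s => ∫ x, conj (U 0 x) * U s x ∂m with hGdef
  have hG0 : G 0 = (v 0 : ℂ) := by
    have h1 : (fun x => conj (U 0 x) * U 0 x) = fun x => ((‖U 0 x‖ ^ 2 : ℝ) : ℂ) := by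
      funext x
      rw [mul_comm, Complex.mul_conj, Complex.normSq_eq_norm_sq]
    rw [hGdef, hv]
    change ∫ x, conj (U 0 x) * U 0 x ∂m = _
    rw [h1, integral_complex_ofReal]
  -- the difference
  have hw : ∀ s ∈ D, ∫⁻ x, ENNReal.ofReal (‖U s x - U 0 x‖ ^ 2) ∂m =
      ENNReal.ofReal (v s - 2 * (G s).re + v 0) ∧ 0 ≤ v s - 2 * (G s).re + v 0 := by
    intro s hs
    have e1 : (fun x => ‖U s x - U 0 x‖ ^ 2) =
        fun x => ‖U s x‖ ^ 2 - 2 * (conj (U 0 x) * U s x).re + ‖U 0 x‖ ^ 2 := by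
      funext x
      exact sub_sq_aux _ _
    have i1 : Integrable (fun x => (conj (U 0 x) * U s x).re) m := (hcr s hs).re
    have i2 : Integrable (fun x => ‖U s x‖ ^ 2 - 2 * (conj (U 0 x) * U s x).re) m :=
      (hint s hs).sub (i1.const_mul 2)
    have i3 : Integrable (fun x => ‖U s x - U 0 x‖ ^ 2) m := by
      rw [e1]
      exact i2.add (hint 0 h0D)
    have e2 : ∫ x, ‖U s x - U 0 x‖ ^ 2 ∂m = v s - 2 * (G s).re + v 0 := by
      rw [e1, integral_add i2 (hint 0 h0D), integral_sub (hint s hs) (i1.const_mul 2),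
        integral_const_mul]
      have e3 : ∫ x, (conj (U 0 x) * U s x).re ∂m = (G s).re :=
        Complex.reCLM.integral_comp_comm (hcr s hs)
      rw [e3]
    refine ⟨?_, ?_⟩
    · rw [← e2, ofReal_integral_eq_lintegral_ofReal i3
        (Filter.Eventually.of_forall fun x => by positivity)]
    · rw [← e2]
      exact integral_nonneg fun x => by positivity
  -- pointwise bound
  have hpt : ∀ x, ENNReal.ofReal (‖U t x - U 0 x‖ ^ 2) ≤
      ENNReal.ofReal (2 * (2 * Real.pi)⁻¹) * ∫⁻ θ in Ioc 0 (2 * Real.pi),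
        ENNReal.ofReal (‖U (c θ) x - U 0 x‖ ^ 2) := by
    intro x
    have hWd : DifferentiableOn ℂ (fun s => (U s x - U 0 x) ^ 2) D :=
      ((hhol x).sub (differentiableOn_const _)).pow 2
    have hW : DiffContOnCl ℂ (fun s => (U s x - U 0 x) ^ 2) (Metric.ball 0 |r|) :=
      (hWd.mono hclos).diffContOnCl
    have hgc : Continuous (fun θ => ‖U (c θ) x - U 0 x‖ ^ 2) :=
      ((hxc x).sub continuous_const).norm.pow 2
    have h1 := disc_bound hr0 ht hW hgc (fun θ => by
      change ‖(U (c θ) x - U 0 x) ^ 2‖ ≤ _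
      rw [norm_pow])
    change ‖(U t x - U 0 x) ^ 2‖ ≤ _ at h1
    rw [norm_pow] at h1
    refine (ENNReal.ofReal_le_ofReal h1).trans (le_of_eq ?_)
    rw [ENNReal.ofReal_mul (by positivity), intervalIntegral.integral_of_le hpi.le,
      ofReal_integral_eq_lintegral_ofReal]
    · exact (hgc.integrableOn_Icc).mono_set Ioc_subset_Icc_self
    · exact Filter.Eventually.of_forall fun θ => by positivity
  -- integrate
  have hjm2 : Measurable (fun p : ℝ × X => ENNReal.ofReal (‖U (c p.1) p.2 - U 0 p.2‖ ^ 2)) :=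
    (((hjm.sub hjm0).norm).pow_const 2).ennreal_ofReal
  have hjmv : Measurable (fun p : ℝ × X => ENNReal.ofReal (‖U (c p.1) p.2‖ ^ 2)) :=
    ((hjm.norm).pow_const 2).ennreal_ofReal
  have hvm : Measurable (fun θ => v (c θ)) := by
    have e1 : (fun θ => v (c θ)) =
        fun θ => (∫⁻ x, ENNReal.ofReal (‖U (c θ) x‖ ^ 2) ∂m).toReal := by
      funext θ
      rw [hv]
      exact integral_eq_lintegral_of_nonneg_ae
        (Filter.Eventually.of_forall fun x => by positivity)
        ((hmeas _ (hcD θ)).norm.pow_const 2).aestronglyMeasurable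
    rw [e1]
    exact (hjmv.lintegral_prod_right').ennreal_toReal
  have hvb : ∀ s ∈ D, 0 ≤ v s ∧ v s ≤ A := by
    intro s hs
    refine ⟨integral_nonneg fun x => by positivity, ?_⟩
    have h1 : ENNReal.ofReal (v s) ≤ ENNReal.ofReal A := by
      rw [hv]
      change ENNReal.ofReal (∫ x, ‖U s x‖ ^ 2 ∂m) ≤ _
      rw [ofReal_integral_eq_lintegral_ofReal (hint s hs)
        (Filter.Eventually.of_forall fun x => by positivity)]
      exact hbd s hs
    exact (ENNReal.ofReal_le_ofReal_iff hA).1 h1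
  have hvi : IntegrableOn (fun θ => v (c θ)) (Ioc 0 (2 * Real.pi)) volume := by
    refine Integrable.of_bound (C := A) hvm.aestronglyMeasurable ?_
    refine Filter.Eventually.of_forall fun θ => ?_
    rw [Real.norm_of_nonneg (hvb _ (hcD θ)).1]
    exact (hvb _ (hcD θ)).2
  have hGc : Continuous (fun θ => G (c θ)) := hGd.continuousOn.comp_continuous hcc hcD
  have hGi : IntegrableOn (fun θ => (G (c θ)).re) (Ioc 0 (2 * Real.pi)) volume :=
    ((Complex.continuous_re.comp hGc).integrableOn_Icc).mono_set Ioc_subset_Icc_self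
  have hvoli : IntegrableOn (fun _ : ℝ => v 0) (Ioc 0 (2 * Real.pi)) volume :=
    (continuous_const.integrableOn_Icc).mono_set Ioc_subset_Icc_self
  have hwi1 : IntegrableOn (fun θ => v (c θ) - 2 * (G (c θ)).re) (Ioc 0 (2 * Real.pi)) volume :=
    hvi.sub (hGi.const_mul 2)
  have hwi : IntegrableOn (fun θ => v (c θ) - 2 * (G (c θ)).re + v 0) (Ioc 0 (2 * Real.pi))
      volume := hwi1.add hvoli
  -- the circle average of G
  have hGav : ∫ θ in Ioc 0 (2 * Real.pi), (G (c θ)).re = 2 * Real.pi * v 0 := by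
    have hGdc : DiffContOnCl ℂ G (Metric.ball 0 |r|) := (hGd.mono hclos).diffContOnCl
    have h1 := hGdc.circleAverage
    rw [Real.circleAverage_def] at h1
    have h2 : ∫ θ in (0 : ℝ)..2 * Real.pi, G (c θ) = (2 * Real.pi : ℝ) • G 0 := by
      rw [← h1, smul_smul, mul_inv_cancel₀ hpi.ne', one_smul]
    have h3 : ∫ θ in (0 : ℝ)..2 * Real.pi, (G (c θ)).re =
        (∫ θ in (0 : ℝ)..2 * Real.pi, G (c θ)).re :=
      Complex.reCLM.intervalIntegral_comp_comm (hGc.intervalIntegrable _ _)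
    rw [← intervalIntegral.integral_of_le hpi.le, h3, h2, hG0, Complex.real_smul,
      ← Complex.ofReal_mul, Complex.ofReal_re]
  have hwint : ∫ θ in Ioc 0 (2 * Real.pi), (v (c θ) - 2 * (G (c θ)).re + v 0) =
      2 * Real.pi * (Real.circleAverage v 0 r - v 0) := by
    rw [integral_add hwi1 hvoli, integral_sub hvi (hGi.const_mul 2), integral_const_mul, hGav,
      Real.circleAverage_def, intervalIntegral.integral_of_le hpi.le]
    have h1 : ∫ _ in Ioc 0 (2 * Real.pi), v 0 = 2 * Real.pi * v 0 := by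
      rw [← intervalIntegral.integral_of_le hpi.le, intervalIntegral.integral_const, sub_zero,
        smul_eq_mul]
    rw [h1, smul_eq_mul]
    field_simp
    ring
  have hnn : 0 ≤ Real.circleAverage v 0 r - v 0 := by
    have h1 : 0 ≤ ∫ θ in Ioc 0 (2 * Real.pi), (v (c θ) - 2 * (G (c θ)).re + v 0) :=
      integral_nonneg fun θ => (hw _ (hcD θ)).2
    rw [hwint] at h1
    exact nonneg_of_mul_nonneg_right h1 hpi
  calc ∫⁻ x, ENNReal.ofReal (‖U t x - U 0 x‖ ^ 2) ∂m
      ≤ ∫⁻ x, (ENNReal.ofReal (2 * (2 * Real.pi)⁻¹) * ∫⁻ θ in Ioc 0 (2 * Real.pi),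
        ENNReal.ofReal (‖U (c θ) x - U 0 x‖ ^ 2)) ∂m := lintegral_mono hpt
    _ = ENNReal.ofReal (2 * (2 * Real.pi)⁻¹) * ∫⁻ x, (∫⁻ θ in Ioc 0 (2 * Real.pi),
        ENNReal.ofReal (‖U (c θ) x - U 0 x‖ ^ 2)) ∂m := by
        rw [lintegral_const_mul' _ _ ENNReal.ofReal_ne_top]
    _ = ENNReal.ofReal (2 * (2 * Real.pi)⁻¹) * ∫⁻ θ in Ioc 0 (2 * Real.pi), (∫⁻ x,
        ENNReal.ofReal (‖U (c θ) x - U 0 x‖ ^ 2) ∂m) := by
        rw [lintegral_lintegral_swap]
        exact (hjm2.comp measurable_swap).aemeasurable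
    _ = ENNReal.ofReal (2 * (2 * Real.pi)⁻¹) * ∫⁻ θ in Ioc 0 (2 * Real.pi),
        ENNReal.ofReal (v (c θ) - 2 * (G (c θ)).re + v 0) := by
        congr 1
        refine lintegral_congr fun θ => ?_
        exact (hw _ (hcD θ)).1
    _ = ENNReal.ofReal (2 * (2 * Real.pi)⁻¹) *
        ENNReal.ofReal (2 * Real.pi * (Real.circleAverage v 0 r - v 0)) := by
        rw [← hwint, ofReal_integral_eq_lintegral_ofReal hwi
          (Filter.Eventually.of_forall fun θ => (hw _ (hcD θ)).2)]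
    _ = ENNReal.ofReal (2 * (Real.circleAverage v 0 r - v 0)) := by
        rw [← ENNReal.ofReal_mul (by positivity)]
        congr 1
        field_simp
    _ ≤ ENNReal.ofReal (4 * (Real.circleAverage v 0 r - v 0)) := by
        refine ENNReal.ofReal_le_ofReal ?_
        linarith

end Pool.Agent.Helper7.QE
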