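import Pool.Agent.Helper61.QE.St3
import Pool.Agent.Helper68.QC.Cal

/-!
Module FIN of project QE: the contradiction.
-/

open MeasureTheory Set Filter Topology Complex
open scoped ContDiff ComplexConjugate ENNReal

namespace Pool.Agent.Helper7.QE

open Pool.Agent.Helper68.QC Pool.Agent.Helper61.QE

/-- A test function times a smooth function. -/
theorem tst_mul {U : Set ℂ} {X f : ℂ → ℂ} (hX : Tst U X)
    (hf : ∀ z ∈ U, ContDiffAt ℝ ∞ f z) : Tst U (fun z => X z * f z) := by
  have hsub : tsupport (fun z => X z * f z) ⊆ tsupport X := by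
    refine closure_mono fun z hz => ?_
    rw [Function.mem_support] at hz ⊢
    exact left_ne_zero_of_mul hz
  refine ⟨?_, hX.cpt.mul_right, hsub.trans hX.sub⟩
  rw [contDiff_iff_contDiffAt]
  intro z
  by_cases hz : z ∈ tsupport X
  · exact (hX.smooth.contDiffAt).mul (hf z (hX.sub hz))
  · have h0 : X =ᶠ[𝓝 z] 0 := notMem_tsupport_iff_eventuallyEq.1 hz
    have h1 : (fun z => X z * f z) =ᶠ[𝓝 z] fun _ => (0 : ℂ) := by
      filter_upwards [h0] with x hx
      simp [hx]
    exact (contDiffAt_const (c := (0 : ℂ))).congr_of_eventuallyEq h1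

/-- A continuous function on `U` times a test function is integrable. -/
theorem int_mul {U : Set ℂ} (hU : IsOpen U) {g ψ : ℂ → ℂ} (hg : ContinuousOn g U)
    (hψ : Tst U ψ) : Integrable (fun z => g z * ψ z) := by
  refine Continuous.integrable_of_hasCompactSupport ?_ hψ.cpt.mul_left
  rw [continuous_iff_continuousAt]
  intro z
  by_cases hz : z ∈ tsupport ψ
  · exact (hg.continuousAt (hU.mem_nhds (hψ.sub hz))).mul hψ.continuous.continuousAt
  · have h0 : ψ =ᶠ[𝓝 z] 0 := notMem_tsupport_iff_eventuallyEq.1 hz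
    refine ContinuousAt.congr (f := fun _ => (0 : ℂ)) continuousAt_const ?_
    filter_upwards [h0] with x hx
    simp [hx]

theorem tst_zero {U : Set ℂ} {ψ : ℂ → ℂ} (hψ : Tst U ψ) {z : ℂ} (hz : z ∉ U) : ψ z = 0 :=
  image_eq_zero_of_notMem_tsupport fun h => hz (hψ.sub h)

theorem pFIN (hEX : StEX) (hPOS : StPOS) (hSUB : StSUB) (hEDD : StEDD) (hCOE : StCOE)
    (hPUX : StPUX) (hUNW : StUNW) : StFIN := by
  intro Γ _ s F h t0 hFu hFD hAb ht0 ht1 A hA hAD hAeq
  have hDo : IsOpen D := Metric.isOpen_ball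
  -- the coefficient
  have hK0 : Kap s 0 (fun _ => (0 : ℂ)) := by
    refine ⟨⟨measurable_const, fun z => by simp⟩, fun _ _ => rfl, fun γ => ?_⟩
    refine Filter.Eventually.of_forall fun z => ?_
    simp
  obtain ⟨-, hsy, -⟩ := hCOE Γ s h (fun _ => 0) 0 hFu.su ⟨hAb.hol, hAb.eqv⟩ le_rfl hK0
  obtain ⟨hBel, -, hSym, -, hval⟩ := hsy t0
  obtain ⟨hD, -, -, -, -, -, -⟩ := hEDD ‖t0‖ ht1 (syX h t0) hBel hSym
  set e : ℂ ≃ₜ ℂ := nq (syX h t0) with he
  have heD : MapsTo e D D := by
    intro z hz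
    rw [← hD]
    exact ⟨z, hz, rfl⟩
  obtain ⟨a0, b0, hWD0, hae0⟩ := (hEX ‖t0‖ ht1 (syX h t0) hBel).sol
  have hsolD : Sol (syX h t0) D e := by
    refine ⟨a0, b0, hWD0.mono (subset_univ _), ?_⟩
    rw [Measure.restrict_univ] at hae0
    exact ae_restrict_of_ae hae0
  have hgA : DifferentiableOn ℂ (fun z => h (A z)) D := hAb.hol.comp hA hAD
  obtain ⟨a, b, hWD, hae⟩ := hPOS (syX h t0) D D e (fun z => h (A z)) hDo hDo hgA heD hsolD
  obtain ⟨χ, hχ⟩ := hPUX Γ s hFu
  obtain ⟨hU1, hU2⟩ := hUNW Γ s F χ hFu hFD hχ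
  -- the partition function as a complex test function
  have hX : Tst D (fun z => (χ z : ℂ)) := by
    refine ⟨Complex.ofRealCLM.contDiff.comp hχ.smooth, ?_, ?_⟩
    · exact hχ.cpt.comp_left (g := fun x : ℝ => (x : ℂ)) Complex.ofReal_zero
    · refine Subset.trans (closure_mono fun z hz => ?_) hχ.sub
      rw [Function.mem_support] at hz ⊢
      intro h0
      exact hz (by rw [h0, Complex.ofReal_zero])
  have hdh : DifferentiableOn ℂ (deriv h) D := hAb.hol.deriv hDo
  have hcd : ∀ z ∈ D, ContDiffAt ℝ ∞ (deriv h) z := by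
    intro z hz
    have h1 : ContDiffOn ℂ ∞ (deriv h) D := hdh.contDiffOn hDo
    exact (h1.contDiffAt (hDo.mem_nhds hz)).restrict_scalars ℝ
  have hcd' : ∀ z ∈ D, ContDiffAt ℝ ∞ (fun z => conj (deriv h z)) z := by
    intro z hz
    exact (Complex.conjCLE.contDiff.contDiffAt).comp z (hcd z hz)
  have hφ1 : Tst D (fun z => (χ z : ℂ) * deriv h z) := tst_mul hX hcd
  have hφ2 : Tst D (fun z => (χ z : ℂ) * conj (deriv h z)) := tst_mul hX hcd'
  have hXz : ∀ z, z ∉ D → (χ z : ℂ) = 0 := fun z hz => tst_zero hX hz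
  have hdφ1 : ∀ z, dzb (fun z => (χ z : ℂ) * deriv h z) z =
      dzb (fun z => (χ z : ℂ)) z * deriv h z := by
    intro z
    by_cases hz : z ∈ D
    · have h1 : DifferentiableAt ℂ (deriv h) z := hdh.differentiableAt (hDo.mem_nhds hz)
      rw [dzb_mul (hX.differentiable z) ((hcd z hz).differentiableAt (by simp)),
        dzb_holo h1, mul_zero, add_zero]
    · rw [dzb_eq_zero (fun h1 => hz (hφ1.sub h1)), dzb_eq_zero (fun h1 => hz (hX.sub h1)),
        zero_mul]
  have hdφ2 : ∀ z, dz (fun z => (χ z : ℂ) * conj (deriv h z)) z =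
      dz (fun z => (χ z : ℂ)) z * conj (deriv h z) := by
    intro z
    by_cases hz : z ∈ D
    · have h1 : DifferentiableAt ℂ (deriv h) z := hdh.differentiableAt (hDo.mem_nhds hz)
      rw [dz_mul (hX.differentiable z) ((hcd' z hz).differentiableAt (by simp)),
        dz_conj ((hcd z hz).differentiableAt (by simp)), dzb_holo h1, map_zero, mul_zero,
        add_zero]
    · rw [dz_eq_zero (fun h1 => hz (hφ2.sub h1)), dz_eq_zero (fun h1 => hz (hX.sub h1)),
        zero_mul]
  -- equivariance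
  have hmobD : ∀ γ, ∀ z ∈ D, mob (s γ) z ∈ D := by
    intro γ z hz
    have hz1 : ‖z‖ < 1 := mem_ball_zero_iff.1 hz
    have hden := hSUB.2.2.2.1 (s γ) (hFu.su γ) z hz1.le
    have h1 := hSUB.2.2.2.2.1 (s γ) (hFu.su γ) z hden
    have h2 : 0 < 1 - ‖z‖ ^ 2 := by nlinarith [norm_nonneg z]
    have h3 : 0 < ‖den (s γ) z‖ ^ 2 := by
      have := norm_pos_iff.2 hden
      positivity
    rw [mem_ball_zero_iff]
    by_contra hcon
    push Not at hcon
    have h4 : 1 - ‖mob (s γ) z‖ ^ 2 ≤ 0 := by nlinarith [norm_nonneg (mob (s γ) z)]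
    have h5 := mul_nonpos_of_nonpos_of_nonneg h4 h3.le
    linarith
  have hder : ∀ γ, ∀ z ∈ D, deriv h (mob (s γ) z) = den (s γ) z ^ 2 * deriv h z := by
    intro γ z hz
    have hz1 : ‖z‖ < 1 := mem_ball_zero_iff.1 hz
    have hden := hSUB.2.2.2.1 (s γ) (hFu.su γ) z hz1.le
    obtain ⟨c, hc⟩ := hAb.eqv γ
    have h1 : HasDerivAt (mob (s γ)) ((den (s γ) z ^ 2)⁻¹) z := hSUB.2.1 (s γ) z hden
    have h2 : HasDerivAt h (deriv h (mob (s γ) z)) (mob (s γ) z) :=
      (hAb.hol.differentiableAt (hDo.mem_nhds (hmobD γ z hz))).hasDerivAt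
    have h3 : HasDerivAt (fun w => h (mob (s γ) w))
        (deriv h (mob (s γ) z) * (den (s γ) z ^ 2)⁻¹) z := h2.comp z h1
    have h4 : HasDerivAt h (deriv h z) z :=
      (hAb.hol.differentiableAt (hDo.mem_nhds hz)).hasDerivAt
    have h5 : HasDerivAt (fun w => h w + c) (deriv h z) z := h4.add_const c
    have h6 : (fun w => h (mob (s γ) w)) =ᶠ[𝓝 z] fun w => h w + c := by
      filter_upwards [hDo.mem_nhds hz] with w hw
      exact hc w hw
    have h7 := (h5.congr_of_eventuallyEq h6).unique h3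
    rw [h7]
    field_simp
  have hinvu : ∀ γ, ∀ z ∈ D, h (A (e (mob (s γ) z))) - h (mob (s γ) z) =
      h (A (e z)) - h z := by
    intro γ z hz
    obtain ⟨c, hc⟩ := hAb.eqv γ
    rw [hAeq γ z hz, hc _ (hAD (heD hz)), hc z hz]
    ring
  have hHc : ContinuousOn (fun z => h (A (e z))) D := hWD.cont
  have hhc : ContinuousOn h D := hAb.hol.continuousOn
  have hdc : ContinuousOn (deriv h) D := hdh.continuousOn
  have hV1 := hU1 (fun z => (h (A (e z)) - h z) * deriv h z) ((hHc.sub hhc).mul hdc) (by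
    intro γ z hz
    change (h (A (e (mob (s γ) z))) - h (mob (s γ) z)) * deriv h (mob (s γ) z) =
      den (s γ) z ^ 2 * ((h (A (e z)) - h z) * deriv h z)
    rw [hinvu γ z hz, hder γ z hz]
    ring)
  have hV2 := hU2 (fun z => (h (A (e z)) - h z) * conj (deriv h z))
    ((hHc.sub hhc).mul (Complex.continuous_conj.comp_continuousOn hdc)) (by
    intro γ z hz
    change (h (A (e (mob (s γ) z))) - h (mob (s γ) z)) * conj (deriv h (mob (s γ) z)) =
      conj (den (s γ) z) ^ 2 * ((h (A (e z)) - h z) * conj (deriv h z))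
    rw [hinvu γ z hz, hder γ z hz, map_mul, map_pow]
    ring)
  have hhC1 : ContDiffOn ℝ 1 h D := by
    have : ContDiffOn ℂ 1 h D := hAb.hol.contDiffOn hDo
    exact this.restrict_scalars ℝ
  -- first test function
  have e1 : ∫ z, b z * ((χ z : ℂ) * deriv h z) = 0 := by
    have q1 := hWD.dzb _ hφ1
    have q2 := ibpOn_dzb hDo hhC1 hφ1
    have q3 : (fun z => dzb h z * ((χ z : ℂ) * deriv h z)) = fun _ => 0 := by
      funext z
      by_cases hz : z ∈ D
      · rw [dzb_holo (hAb.hol.differentiableAt (hDo.mem_nhds hz)), zero_mul]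
      · rw [hXz z hz, zero_mul, mul_zero]
    rw [q3, integral_zero, neg_zero] at q2
    have q4 : (fun z => (h (A (e z)) - h z) * deriv h z * dzb (fun w => (χ w : ℂ)) z) =
        fun z => h (A (e z)) * dzb (fun z => (χ z : ℂ) * deriv h z) z -
          h z * dzb (fun z => (χ z : ℂ) * deriv h z) z := by
      funext z
      rw [hdφ1]
      ring
    rw [q4, integral_sub (int_mul hDo hHc hφ1.hdzb) (int_mul hDo hhc hφ1.hdzb), q1, q2,
      sub_zero] at hV1
    exact neg_eq_zero.1 hV1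
  have e2 : ∫ z, b z * ((χ z : ℂ) * deriv h z) =
      ∫ z, conj t0 * (a z * ((χ z : ℂ) * conj (deriv h z))) := by
    refine integral_congr_ae ?_
    have hae' := (ae_restrict_iff' hDo.measurableSet).1 hae
    have hne : ∀ᵐ z : ℂ, z ≠ 0 := by
      have : volume ({0} : Set ℂ) = 0 := measure_singleton 0
      rw [ae_iff]
      simpa using this
    filter_upwards [hae', hne] with z hz hz0
    by_cases hzD : z ∈ D
    · rw [hz hzD, hval z hzD hz0]
      by_cases hd : deriv h z = 0
      · rw [hd, map_zero]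
        ring
      · field_simp
    · rw [hXz z hzD]
      ring
  have e3 : ∫ z, a z * ((χ z : ℂ) * conj (deriv h z)) = 0 := by
    rw [e1, integral_const_mul] at e2
    have hc0 : conj t0 ≠ 0 := by
      intro h0
      have h1 : t0 = 0 := by simpa using h0
      rw [h1, norm_zero] at ht0
      exact lt_irrefl _ ht0
    exact (mul_eq_zero.1 e2.symm).resolve_left hc0
  -- second test function
  have e4 : ∫ z, ((χ z * ‖deriv h z‖ ^ 2 : ℝ) : ℂ) = 0 := by
    have q1 := hWD.dz _ hφ2
    have q2 := ibpOn_dz hDo hhC1 hφ2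
    have q3 : (fun z => dz h z * ((χ z : ℂ) * conj (deriv h z))) =
        fun z => ((χ z * ‖deriv h z‖ ^ 2 : ℝ) : ℂ) := by
      funext z
      by_cases hz : z ∈ D
      · rw [dz_holo (hAb.hol.differentiableAt (hDo.mem_nhds hz))]
        have h1 : deriv h z * conj (deriv h z) = ((‖deriv h z‖ ^ 2 : ℝ) : ℂ) := by
          rw [Complex.mul_conj, Complex.normSq_eq_norm_sq]
        push_cast at h1 ⊢
        rw [← h1]
        ring
      · have h1 := hXz z hz
        have h2 : χ z = 0 := by exact_mod_cast h1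
        rw [h1, h2]
        simp
    rw [q3] at q2
    have q4 : (fun z => (h (A (e z)) - h z) * conj (deriv h z) * dz (fun w => (χ w : ℂ)) z) =
        fun z => h (A (e z)) * dz (fun z => (χ z : ℂ) * conj (deriv h z)) z -
          h z * dz (fun z => (χ z : ℂ) * conj (deriv h z)) z := by
      funext z
      rw [hdφ2]
      ring
    rw [q4, integral_sub (int_mul hDo hHc hφ2.hdz) (int_mul hDo hhc hφ2.hdz), q1, q2, e3,
      neg_zero, zero_sub, neg_neg] at hV2
    exact hV2
  have e5 : ∫ z, χ z * ‖deriv h z‖ ^ 2 = 0 := by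
    have h1 : ∫ z, ((χ z * ‖deriv h z‖ ^ 2 : ℝ) : ℂ) =
        ((∫ z, χ z * ‖deriv h z‖ ^ 2 : ℝ) : ℂ) := integral_complex_ofReal
    rw [h1] at e4
    exact_mod_cast e4
  -- the integrand vanishes
  have hwc : Continuous (fun z => χ z * ‖deriv h z‖ ^ 2) := by
    rw [continuous_iff_continuousAt]
    intro z
    by_cases hz : z ∈ tsupport χ
    · have h1 := hdc.continuousAt (hDo.mem_nhds (hχ.sub hz))
      exact (hχ.smooth.continuous.continuousAt).mul (h1.norm.pow 2)
    · have h0 : χ =ᶠ[𝓝 z] 0 := notMem_tsupport_iff_eventuallyEq.1 hz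
      refine ContinuousAt.congr (f := fun _ => (0 : ℝ)) continuousAt_const ?_
      filter_upwards [h0] with x hx
      simp [hx]
  have hw0 : ∀ z, χ z * ‖deriv h z‖ ^ 2 = 0 := by
    intro z
    by_contra hcon
    have h1 := Continuous.integral_pos_of_hasCompactSupport_nonneg_nonzero
      (μ := (volume : Measure ℂ)) hwc (hχ.cpt.mul_right)
      (fun x => mul_nonneg (hχ.nn x) (by positivity)) hcon
    rw [e5] at h1
    exact lt_irrefl _ h1
  -- a point where the partition function does not vanish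
  obtain ⟨z0, hz0⟩ : ∃ z0, χ z0 ≠ 0 := by
    by_contra hcon
    push Not at hcon
    have h1 := hχ.sum 0 (by simp)
    have h2 : (fun γ : Γ => χ (mob (s γ) 0)) = fun _ => 0 := by
      funext γ
      exact hcon _
    rw [h2, tsum_zero] at h1
    exact zero_ne_one h1
  have hz0D : z0 ∈ D := hχ.sub (subset_tsupport _ hz0)
  have hev : ∀ᶠ z in 𝓝 z0, deriv h z = 0 := by
    have h1 : ∀ᶠ z in 𝓝 z0, χ z ≠ 0 :=
      hχ.smooth.continuous.continuousAt.eventually_ne hz0
    filter_upwards [h1] with z hz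
    have h2 := (mul_eq_zero.1 (hw0 z)).resolve_left hz
    exact norm_eq_zero.1 (pow_eq_zero_iff (two_ne_zero) |>.1 h2)
  have hall : EqOn (deriv h) 0 D :=
    (hdh.analyticOnNhd hDo).eqOn_zero_of_preconnected_of_eventuallyEq_zero
      (convex_ball (0 : ℂ) 1).isPreconnected hz0D hev
  obtain ⟨z1, hz1, hz1n⟩ := hAb.ne
  exact hz1n (hall hz1)

end Pool.Agent.Helper7.QE
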