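import Pool.Agent.Helper61.QE.St2

/-!
Module LIM of project QE: existence of the limit.
-/

open MeasureTheory Set Filter Topology Complex
open scoped ContDiff ComplexConjugate ENNReal

namespace Pool.Agent.Helper7.QE

open Pool.Agent.Helper68.QC Pool.Agent.Helper61.QE

/-- Limits of representations with bounded entries. -/
theorem rep_lim {Γ : Type} [Group Γ] (U : Ultrafilter ℕ) (R : ℕ → Γ →* SL)
    (hb : ∀ γ, ∃ C : ℝ, ∀ n i j, ‖R n γ i j‖ ≤ C) :
    ∃ Ri : Γ →* SL, ∀ γ i j, Tendsto (fun n => R n γ i j) (U : Filter ℕ) (𝓝 (Ri γ i j)) := by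
  have hex : ∀ γ : Γ, ∀ i j : Fin 2, ∃ a : ℂ,
      Tendsto (fun n => R n γ i j) (U : Filter ℕ) (𝓝 a) := by
    intro γ i j
    obtain ⟨C, hC⟩ := hb γ
    obtain ⟨a, _, ha⟩ := (isCompact_closedBall (0 : ℂ) C).ultrafilter_le_nhds
      (U.map (fun n => R n γ i j)) (by
        rw [Ultrafilter.coe_map, le_principal_iff, mem_map]
        refine Filter.Eventually.of_forall fun n => ?_
        rw [mem_closedBall_zero_iff]
        exact hC n i j)
    exact ⟨a, ha⟩
  choose L hL using hex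
  have hdet : ∀ γ : Γ, (Matrix.of (L γ)).det = 1 := by
    intro γ
    rw [Matrix.det_fin_two]
    have h1 : Tendsto (fun n => R n γ 0 0 * R n γ 1 1 - R n γ 0 1 * R n γ 1 0) (U : Filter ℕ)
        (𝓝 (L γ 0 0 * L γ 1 1 - L γ 0 1 * L γ 1 0)) :=
      ((hL γ 0 0).mul (hL γ 1 1)).sub ((hL γ 0 1).mul (hL γ 1 0))
    have h2 : (fun n => R n γ 0 0 * R n γ 1 1 - R n γ 0 1 * R n γ 1 0) = fun _ => (1 : ℂ) := by
      funext n
      have h := (R n γ).det_coe
      rw [Matrix.det_fin_two] at h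
      exact h
    rw [h2] at h1
    exact tendsto_nhds_unique h1 tendsto_const_nhds
  refine ⟨⟨⟨fun γ => ⟨Matrix.of (L γ), hdet γ⟩, ?_⟩, ?_⟩, ?_⟩
  · ext i j
    change L 1 i j = (1 : SL) i j
    have h1 := hL 1 i j
    have h2 : (fun n => R n 1 i j) = fun _ => ((1 : SL) i j : ℂ) := by
      funext n
      rw [map_one]
    rw [h2] at h1
    exact tendsto_nhds_unique h1 tendsto_const_nhds |>.symm ▸ rfl
  · intro x y
    ext i j
    change L (x * y) i j = _
    rw [Matrix.SpecialLinearGroup.coe_mul, Matrix.mul_apply, Fin.sum_univ_two]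
    change L (x * y) i j = L x i 0 * L y 0 j + L x i 1 * L y 1 j
    have h1 := hL (x * y) i j
    have h2 : (fun n => R n (x * y) i j) = fun n => R n x i 0 * R n y 0 j +
        R n x i 1 * R n y 1 j := by
      funext n
      rw [map_mul, Matrix.SpecialLinearGroup.coe_mul, Matrix.mul_apply, Fin.sum_univ_two]
    rw [h2] at h1
    exact tendsto_nhds_unique h1
      (((hL x i 0).mul (hL y 0 j)).add ((hL x i 1).mul (hL y 1 j)))
  · intro γ i j
    exact hL γ i j

theorem pLIM (hEX : StEX) (hCLO : StCLO) (hGRO : StGRO) (hEQV : StEQV) (hINT : StINT)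
    (hGRW : StGRW) (hFUX : StFUX) (hENT : StENT) (hULM : StULM) (hPLM : StPLM) (hEDD : StEDD)
    (hCOE : StCOE) : StLIM := by
  intro Γ _ s F h t0 G N R R' hFu _ hAb _ ht1 hSq
  obtain ⟨U, hU⟩ : ∃ U : Ultrafilter ℕ, (U : Filter ℕ) ≤ atTop :=
    ⟨hyperfilter ℕ, Nat.hyperfilter_le_atTop⟩
  obtain ⟨P, hPhol, hPinj, hP0, hPcon⟩ := hPLM U 1 G hSq.gd
  obtain ⟨ν, hν, hνcon⟩ := hCLO ‖t0‖ ht1 ℕ U N hSq.nbel
  -- the coefficient
  have hK0 : Kap s 0 (fun _ => (0 : ℂ)) := by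
    refine ⟨⟨measurable_const, fun z => by simp⟩, fun _ _ => rfl, fun γ => ?_⟩
    refine Filter.Eventually.of_forall fun z => ?_
    simp
  obtain ⟨-, hsy, -⟩ := hCOE Γ s h (fun _ => 0) 0 hFu.su ⟨hAb.hol, hAb.eqv⟩ le_rfl hK0
  obtain ⟨hBel, hInv, hSym, -, -⟩ := hsy t0
  obtain ⟨hD, hDx, -, hrf, he0, hes0, hSU⟩ := hEDD ‖t0‖ ht1 (syX h t0) hBel hSym
  set e : ℂ ≃ₜ ℂ := nq (syX h t0) with he
  have hse : ∀ z, ‖z‖ ≤ 1 → ‖e.symm z‖ ≤ 1 := by
    intro z hz
    by_contra hcon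
    push Not at hcon
    have h1 : e (e.symm z) ∈ e '' Dx := ⟨e.symm z, hcon, rfl⟩
    rw [hDx, e.apply_symm_apply] at h1
    have h2 : 1 < ‖z‖ := h1
    linarith
  have hee : ∀ z, ‖z‖ ≤ 1 → ‖e z‖ ≤ 1 := by
    intro z hz
    by_contra hcon
    push Not at hcon
    have h1 : e z ∈ e '' Dx := by
      rw [hDx]
      exact hcon
    obtain ⟨w, hw, hwz⟩ := h1
    have h2 : w = z := e.injective hwz
    rw [h2] at hw
    have h3 : 1 < ‖z‖ := hw
    linarith
  obtain ⟨M, hM⟩ := hGRO ‖t0‖ ht1 1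
  have hN0 : ∀ n, nq (N n) 0 = 0 := fun n => (hEX ‖t0‖ ht1 (N n) (hSq.nbel n)).zero
  have hN1 : ∀ n, nq (N n) 1 = 1 := fun n => (hEX ‖t0‖ ht1 (N n) (hSq.nbel n)).one
  have hν0 : nq ν 0 = 0 := (hEX ‖t0‖ ht1 ν hν).zero
  set Hn : ℕ → (ℂ ≃ₜ ℂ) := fun n => (e.symm.trans (G n)).trans (nq (N n)) with hHn
  have hHnv : ∀ n z, Hn n z = nq (N n) (G n (e.symm z)) := fun n z => rfl
  have hGd : ∀ n, Gd M (Hn n) := by
    intro n
    obtain ⟨q, hq, hq1⟩ := (hSq.gd n).one
    refine ⟨?_, ⟨e q, hee q hq, ?_⟩, ?_, ?_⟩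
    · rw [hHnv, hes0, (hSq.gd n).zero, hN0]
    · rw [hHnv, e.symm_apply_apply, hq1, hN1]
    · intro z hz
      rw [hHnv]
      exact (hM (N n) (hSq.nbel n) _ ((hSq.gd n).le _ (hse z hz))).1
    · exact hSq.phol n
  -- the representations
  have hb : ∀ γ, ∃ C : ℝ, ∀ n i j, ‖R n γ i j‖ ≤ C := by
    intro γ
    by_cases hγ : γ = 1
    · refine ⟨1, fun n i j => ?_⟩
      rw [hγ, map_one]
      fin_cases i <;> fin_cases j <;> simp
    · obtain ⟨-, -, ρ0, -, hρ⟩ := hFUX Γ s hFu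
      obtain ⟨C, -, hC⟩ := hENT (s γ) (hFu.su γ) (hρ γ hγ).1 1
      exact ⟨C, fun n i j => (hC (G n) (hSq.gd n) (R n γ) (hSq.gint n γ)).1 i j⟩
  have hb' : ∀ γ, ∃ C : ℝ, ∀ n i j, ‖R' n γ i j‖ ≤ C := by
    intro γ
    by_cases hγ : γ = 1
    · refine ⟨1, fun n i j => ?_⟩
      rw [hγ, map_one]
      fin_cases i <;> fin_cases j <;> simp
    · obtain ⟨-, -, ρ0, -, hρ⟩ := hFUX Γ s hFu
      obtain ⟨A, hA⟩ := hEQV ‖t0‖ ht1 (syX h t0) hBel (s γ) (hInv γ)
      have hA10 : A 1 0 ≠ 0 := fun h0 => (hρ γ hγ).1 (hA.2.2.1.2 h0)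
      have hASU : SU A := hSU (s γ) A (hFu.su γ) hA
      obtain ⟨C, -, hC⟩ := hENT A hASU hA10 M
      refine ⟨C, fun n i j => (hC (Hn n) (hGd n) (R' n γ) ?_).1 i j⟩
      refine hINT.2.2 (s γ) A (R' n γ) e (Hn n) hA ?_
      have h1 : (fun z => Hn n (e z)) = fun z => nq (N n) (G n z) := by
        funext z
        rw [hHnv, e.symm_apply_apply]
      rw [h1]
      exact hSq.pint n γ
  obtain ⟨Ri, hRi⟩ := rep_lim U R hb
  obtain ⟨Ri', hRi'⟩ := rep_lim U R' hb'
  refine ⟨U, P, ν, Ri, Ri', ⟨hU, hPcon, hPhol, hPinj, hP0, hν, fun r => (hνcon r).1, hRi,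
    hRi', ?_⟩⟩
  -- the limit of the second sequence
  obtain ⟨g, hghol, hgcon⟩ := hULM U (fun n => PG (Hn n)) D Metric.isOpen_ball
    (fun n => (hGRW M (Hn n) (hGd n)).1.1) (by
      intro K hK hKc
      have hcont : ContinuousOn (fun z : ℂ => 4 * ‖z‖ / (1 - ‖z‖) ^ 2) K := by
        refine ContinuousOn.div (by fun_prop) (by fun_prop) ?_
        intro z hz
        have := mem_ball_zero_iff.1 (hK hz)
        have : 0 < 1 - ‖z‖ := by linarith
        positivity
      obtain ⟨C, hC⟩ := hKc.exists_bound_of_continuousOn hcont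
      refine ⟨C, fun n z hz => ?_⟩
      have h1 := (hGRW M (Hn n) (hGd n)).2.2.2 z (hK hz)
      have h2 := mem_ball_zero_iff.1 (hK hz)
      have h3 : 0 < 1 - ‖z‖ := by linarith
      have h4 := hC z hz
      rw [Real.norm_eq_abs] at h4
      refine le_trans ?_ (le_trans (le_abs_self _) h4)
      rw [le_div_iff₀ (by positivity)]
      exact h1)
  refine hghol.congr fun v hv => ?_
  have hvn : ‖v‖ < 1 := mem_ball_zero_iff.1 hv
  refine tendsto_nhds_unique ?_ (hgcon.tendsto_at hv)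
  by_cases hv0 : v = 0
  · have h1 : (fun n => PG (Hn n) v) = fun _ => (0 : ℂ) := by
      funext n
      unfold PG
      rw [hv0, inv_zero, (hGd n).zero, inv_zero]
    rw [h1]
    have h2 : PG (nq ν) (P (conj (e.symm (conj v)))) = 0 := by
      rw [hv0, map_zero, hes0, map_zero, hP0]
      unfold PG
      rw [inv_zero, hν0, inv_zero]
    rw [h2]
    exact tendsto_const_nhds
  · have hcv0 : conj v ≠ 0 := by
      intro h0
      exact hv0 (by simpa using h0)
    set w : ℂ := conj (e.symm (conj v)) with hw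
    have hes1 : e.symm (conj v) ≠ 0 := by
      intro h0
      have h1 : e (e.symm (conj v)) = e 0 := by rw [h0]
      rw [e.apply_symm_apply, he0] at h1
      exact hcv0 h1
    have hw0 : w ≠ 0 := by
      intro h0
      apply hes1
      have : conj w = 0 := by rw [h0, map_zero]
      rw [hw, Complex.conj_conj] at this
      exact this
    have hwD : w ∈ D := by
      rw [mem_ball_zero_iff, hw, Complex.norm_conj]
      have h1 : conj v ∈ e '' D := by
        rw [hD, mem_ball_zero_iff, Complex.norm_conj]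
        exact hvn
      obtain ⟨x, hx, hxv⟩ := h1
      rw [← hxv, e.symm_apply_apply]
      exact mem_ball_zero_iff.1 hx
    have hinv : e.symm v⁻¹ = w⁻¹ := by
      have h1 : v⁻¹ = rf (conj v) := by
        unfold rf
        rw [Complex.conj_conj, one_div]
      rw [h1, hrf]
      unfold rf
      rw [one_div]
    have hPw : P w ≠ 0 := by
      intro h0
      apply hw0
      refine hPinj hwD ?_ (by rw [h0, hP0])
      rw [mem_ball_zero_iff, norm_zero]
      exact one_pos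
    have hlim1 : Tendsto (fun n => PG (G n) w) (U : Filter ℕ) (𝓝 (P w)) :=
      hPcon.tendsto_at hwD
    have hlim2 : Tendsto (fun n => (PG (G n) w)⁻¹) (U : Filter ℕ) (𝓝 (P w)⁻¹) :=
      hlim1.inv₀ hPw
    have hlim3 : Tendsto (fun n => nq (N n) ((PG (G n) w)⁻¹)) (U : Filter ℕ)
        (𝓝 (nq ν (P w)⁻¹)) := by
      set x : ℂ := (P w)⁻¹ with hx
      have hu := (hνcon (‖x‖ + 1)).1
      rw [Metric.tendstoUniformlyOn_iff] at hu
      rw [Metric.tendsto_nhds]
      intro ε hε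
      have h1 := hu (ε / 2) (by positivity)
      have h2 : Tendsto (fun n => nq ν ((PG (G n) w)⁻¹)) (U : Filter ℕ) (𝓝 (nq ν x)) :=
        ((nq ν).continuous.tendsto x).comp hlim2
      rw [Metric.tendsto_nhds] at h2
      have h3 := h2 (ε / 2) (by positivity)
      rw [Metric.tendsto_nhds] at hlim2
      have h4 := hlim2 1 one_pos
      filter_upwards [h1, h3, h4] with n a1 a3 a4
      have a5 : (PG (G n) w)⁻¹ ∈ Metric.closedBall (0 : ℂ) (‖x‖ + 1) := by
        rw [mem_closedBall_zero_iff]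
        rw [dist_eq_norm] at a4
        have : ‖(PG (G n) w)⁻¹‖ ≤ ‖(PG (G n) w)⁻¹ - x‖ + ‖x‖ := by
          have := norm_add_le ((PG (G n) w)⁻¹ - x) x
          rwa [sub_add_cancel] at this
        linarith
      have a6 := a1 _ a5
      rw [dist_comm] at a6
      have := dist_triangle (nq (N n) ((PG (G n) w)⁻¹)) (nq ν ((PG (G n) w)⁻¹)) (nq ν x)
      linarith
    have hne : nq ν (P w)⁻¹ ≠ 0 := by
      intro h0
      rw [← hν0] at h0
      have := (nq ν).injective h0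
      exact hPw (inv_eq_zero.1 this)
    have hlim4 := hlim3.inv₀ hne
    have h5 : PG (nq ν) (P w) = (nq ν (P w)⁻¹)⁻¹ := rfl
    rw [h5]
    refine hlim4.congr fun n => ?_
    unfold PG
    rw [inv_inv, hHnv, hinv]

end Pool.Agent.Helper7.QE
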