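import Pool.Agent.Helper61.QE.St5

/-!
Module STR of project QE: strictness.
-/

open MeasureTheory Set Filter Topology Complex
open scoped ContDiff ComplexConjugate ENNReal

namespace Pool.Agent.Helper7.QE

open Pool.Agent.Helper68.QC Pool.Agent.Helper61.QE

theorem muT_zero (κ h : ℂ → ℂ) : muT κ h 0 = κ := by
  funext z
  unfold muT
  rw [zero_mul, add_zero]

theorem pSTR (hPE1 : StPE1) (hTRF : StTRF) (hSQ1 : StSQ1) (hEUP : StEUP) (hCTR : StCTR) :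
    StSTR := by
  intro Γ _ s F h hFu hFD hAb r hr0 hr1
  obtain ⟨τ0, hτ0, hctr⟩ := hCTR
  obtain ⟨C, hC, hup⟩ := hEUP Γ s F hFu hFD
  by_contra hcon
  push Not at hcon
  have hτ : 0 < min (r / 2) τ0 := lt_min (by linarith) hτ0
  set t0 : ℂ := ((min (r / 2) τ0 : ℝ) : ℂ) with ht0
  have hn : ‖t0‖ = min (r / 2) τ0 := by
    rw [ht0, Complex.norm_real, Real.norm_of_nonneg hτ.le]
  have hn0 : 0 < ‖t0‖ := by
    rw [hn]
    exact hτ
  have hnr : ‖t0‖ ≤ r / 2 := by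
    rw [hn]
    exact min_le_left _ _
  have hnτ : ‖t0‖ ≤ τ0 := by
    rw [hn]
    exact min_le_right _ _
  have hn1 : ‖t0‖ < 1 := by linarith
  have ht0D : t0 ∈ D := mem_ball_zero_iff.2 hn1
  have hcpos : ∀ n : ℕ, 0 < 1 / (4 * C ^ 2 * ((n : ℝ) + 1)) := by
    intro n
    positivity
  choose k hk κ hκ hlt using fun n : ℕ => hcon (1 / (4 * C ^ 2 * ((n : ℝ) + 1))) (hcpos n)
  choose G N R R' hGd hGi hNb hNo hPi hPh hI1 hI2 using
    fun n : ℕ => hSQ1 Γ s F h (κ n) (k n) hFu hFD hAb (hk n) (hκ n) t0 ht0D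
  refine hctr Γ s F h t0 G N R R' hFu hFD hAb hn0 hnτ hn1
    ⟨hGd, hGi, hNb, hNo, hPi, hPh, fun n => ?_⟩
  rw [hI1 n]
  obtain ⟨-, htr⟩ := hTRF Γ s F h (κ n) (k n) hFu hFD hAb (hk n) (hκ n) t0 ht0D
  rw [← htr]
  obtain ⟨-, -, -, hpe⟩ := hPE1 Γ s F h (κ n) (k n) hFu hFD hAb (hk n) (hκ n)
  refine (hpe r hr0 hr1 t0 hnr).trans ?_
  -- the volume
  have hvtop : volume (G n '' D) ≠ ⊤ := by
    have h1 : G n '' D ⊆ Metric.closedBall 0 1 := by
      rintro _ ⟨z, hz, rfl⟩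
      rw [mem_closedBall_zero_iff]
      exact (hGd n).le z (mem_ball_zero_iff.1 hz).le
    exact ((measure_mono h1).trans_lt
      (isCompact_closedBall (0 : ℂ) 1).measure_lt_top).ne
  set E0 : ℝ := Et F (κ n) h 0 with hE0
  have hE0eq : E0 = (En F (κ n)).toReal := by
    rw [hE0]
    unfold Et
    rw [muT_zero]
  have hEle : En F (κ n) ≤ ENNReal.ofReal C * volume (G n '' D) := by
    rw [← hI2 n]
    exact hup (G n) (R n) (hGd n) (hGi n)
  have hE00 : 0 ≤ E0 := by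
    rw [hE0eq]
    exact ENNReal.toReal_nonneg
  have hE0le : E0 ≤ C * (volume (G n '' D)).toReal := by
    rw [hE0eq]
    have h1 := ENNReal.toReal_mono (ENNReal.mul_ne_top ENNReal.ofReal_ne_top hvtop) hEle
    rwa [ENNReal.toReal_mul, ENNReal.toReal_ofReal hC.le] at h1
  set V : ℝ := (volume (G n '' D)).toReal with hV
  have hV0 : 0 ≤ V := ENNReal.toReal_nonneg
  have hlt' : E0 - Real.circleAverage (Et F (κ n) h) 0 r <
      1 / (4 * C ^ 2 * ((n : ℝ) + 1)) * E0 ^ 2 := hlt n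
  have h2 : E0 ^ 2 ≤ (C * V) ^ 2 := pow_le_pow_left₀ hE00 hE0le 2
  have h3 : 4 * (E0 - Real.circleAverage (Et F (κ n) h) 0 r) ≤ 1 / ((n : ℝ) + 1) * V ^ 2 := by
    have h4 : 1 / (4 * C ^ 2 * ((n : ℝ) + 1)) * E0 ^ 2 ≤
        1 / (4 * C ^ 2 * ((n : ℝ) + 1)) * (C * V) ^ 2 :=
      mul_le_mul_of_nonneg_left h2 (hcpos n).le
    have h5 : 4 * (1 / (4 * C ^ 2 * ((n : ℝ) + 1)) * (C * V) ^ 2) =
        1 / ((n : ℝ) + 1) * V ^ 2 := by
      field_simp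
    linarith
  refine (ENNReal.ofReal_le_ofReal h3).trans (le_of_eq ?_)
  rw [ENNReal.ofReal_mul (by positivity), ENNReal.ofReal_pow hV0, hV,
    ENNReal.ofReal_toReal hvtop]

end Pool.Agent.Helper7.QE
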